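import Mathlib

/-! Density of sets of natural numbers, averages, existence of invariant measures. -/

namespace Pool.Agent.X194.AS

open Set Topology Filter MeasureTheory

open Classical in
/-- number of elements below `n` -/
noncomputable def cn (E : Set ℕ) (n : ℕ) : ℕ := ((Finset.range n).filter fun i => i ∈ E).card

/-- density zero -/
def dz (E : Set ℕ) : Prop := Tendsto (fun n : ℕ => (cn E n : ℝ) / n) atTop (𝓝 0)

lemma cn_mono {E E' : Set ℕ} (h : E ⊆ E') (n : ℕ) : cn E n ≤ cn E' n := by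
  classical
  unfold cn
  apply Finset.card_le_card
  intro i hi
  rw [Finset.mem_filter] at hi ⊢
  exact ⟨hi.1, h hi.2⟩

lemma cn_mono' {E E' : Set ℕ} {n : ℕ} (h : ∀ i < n, i ∈ E → i ∈ E') : cn E n ≤ cn E' n := by
  classical
  unfold cn
  apply Finset.card_le_card
  intro i hi
  rw [Finset.mem_filter] at hi ⊢
  exact ⟨hi.1, h i (Finset.mem_range.1 hi.1) hi.2⟩

lemma cn_union (E E' : Set ℕ) (n : ℕ) : cn (E ∪ E') n ≤ cn E n + cn E' n := by
  unfold cn
  refine le_trans (Finset.card_le_card ?_) (Finset.card_union_le _ _)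
  intro i hi
  simp only [Finset.mem_union, Finset.mem_filter, mem_union] at hi ⊢
  rcases hi.2 with h | h
  · exact Or.inl ⟨hi.1, h⟩
  · exact Or.inr ⟨hi.1, h⟩

lemma cn_le (E : Set ℕ) (n : ℕ) : cn E n ≤ n := by
  classical
  unfold cn
  exact (Finset.card_filter_le _ _).trans (by simp)

lemma cn_biUnion (E : ℕ → Set ℕ) (s : Finset ℕ) (n : ℕ) :
    cn (⋃ k ∈ s, E k) n ≤ ∑ k ∈ s, cn (E k) n := by
  classical
  induction s using Finset.induction_on with
  | empty =>
    simp only [Finset.notMem_empty, iUnion_of_empty, iUnion_empty, Finset.sum_empty]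
    unfold cn; simp
  | insert a s ha ih =>
    rw [Finset.set_biUnion_insert, Finset.sum_insert ha]
    exact (cn_union _ _ _).trans (Nat.add_le_add_left ih _)

lemma cn_shift (E : Set ℕ) (t n : ℕ) : cn {i | i + t ∈ E} n ≤ cn E (n + t) := by
  classical
  unfold cn
  refine Finset.card_le_card_of_injOn (fun i => i + t) ?_ (fun a _ b _ h => by simpa using h)
  intro i hi
  simp only [Finset.coe_filter, Finset.mem_range, mem_ofPred_eq] at hi ⊢
  exact ⟨by omega, hi.2⟩

lemma cn_add (E : Set ℕ) (n t : ℕ) : cn E (n + t) ≤ cn E n + t := by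
  induction t with
  | zero => simp
  | succ t ih =>
    refine le_trans ?_ (Nat.add_le_add_right ih 1)
    classical
    show ((Finset.range (n + t + 1)).filter fun i => i ∈ E).card ≤ _
    rw [Finset.range_add_one, Finset.filter_insert]
    split_ifs
    · exact Finset.card_insert_le _ _
    · exact Nat.le_succ _

lemma dz_of_le {A E : Set ℕ} (c : ℕ) (h : ∀ n, cn A n ≤ cn E n + c) (hE : dz E) : dz A := by
  unfold dz at *
  have h1 : Tendsto (fun n : ℕ => (cn E n : ℝ) / n + (c : ℝ) / n) atTop (𝓝 0) := by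
    have := hE.add (tendsto_const_div_atTop_nhds_zero_nat (c : ℝ))
    simpa using this
  refine squeeze_zero (fun n => by positivity) (fun n => ?_) h1
  rw [← add_div]
  apply div_le_div_of_nonneg_right _ (Nat.cast_nonneg n)
  exact_mod_cast h n

lemma dz_mono {A E : Set ℕ} (h : A ⊆ E) (hE : dz E) : dz A :=
  dz_of_le 0 (fun n => by simpa using cn_mono h n) hE

lemma dz_union {A E : Set ℕ} (hA : dz A) (hE : dz E) : dz (A ∪ E) := by
  unfold dz at *
  have h1 := hA.add hE
  rw [add_zero] at h1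
  refine squeeze_zero (fun n => by positivity) (fun n => ?_) h1
  rw [← add_div]
  apply div_le_div_of_nonneg_right _ (Nat.cast_nonneg n)
  exact_mod_cast cn_union A E n

lemma dz_shift {E : Set ℕ} (t : ℕ) (hE : dz E) : dz {i | i + t ∈ E} :=
  dz_of_le t (fun n => (cn_shift E t n).trans (cn_add E n t)) hE

lemma dz_empty : dz ∅ := by
  unfold dz
  have : ∀ n, cn ∅ n = 0 := fun n => by unfold cn; simp
  simp [this]

lemma dz_lt {E : ℕ → Set ℕ} (m : ℕ) (h : ∀ t < m, dz (E t)) : dz {i | ∃ t < m, i ∈ E t} := by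
  induction m with
  | zero => exact dz_mono (by rintro i ⟨t, ht, _⟩; omega) dz_empty
  | succ m ih =>
    refine dz_mono ?_ (dz_union (ih fun t ht => h t (by omega)) (h m (by omega)))
    rintro i ⟨t, ht, hi⟩
    rcases Nat.lt_succ_iff_lt_or_eq.1 ht with h' | h'
    · exact Or.inl ⟨t, h', hi⟩
    · exact Or.inr (h' ▸ hi)

lemma dz_bdd {E : Set ℕ} {B : ℕ} (h : ∀ i ∈ E, i < B) : dz E := by
  refine dz_of_le B (fun n => ?_) dz_empty
  classical
  have : cn E n ≤ B := by
    unfold cn
    calc _ ≤ (Finset.range B).card := by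
          apply Finset.card_le_card
          intro i hi
          exact Finset.mem_range.2 (h i (Finset.mem_filter.1 hi).2)
      _ = B := Finset.card_range B
  omega

/-- averages tending to zero -/
lemma dz_of_avg {u : ℕ → ℝ} (h0 : ∀ i, 0 ≤ u i)
    (h : Tendsto (fun n : ℕ => (∑ i ∈ Finset.range n, u i) / n) atTop (𝓝 0)) {ε : ℝ} (hε : 0 < ε) :
    dz {i | ε < u i} := by
  classical
  unfold dz
  have h1 : Tendsto (fun n : ℕ => ε⁻¹ * ((∑ i ∈ Finset.range n, u i) / n)) atTop (𝓝 0) := by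
    simpa using h.const_mul ε⁻¹
  refine squeeze_zero (fun n => by positivity) (fun n => ?_) h1
  rw [← mul_div_assoc]
  apply div_le_div_of_nonneg_right _ (Nat.cast_nonneg n)
  rw [← div_eq_inv_mul, le_div_iff₀ hε]
  unfold cn
  rw [← nsmul_eq_mul]
  calc _ ≤ ∑ i ∈ (Finset.range n).filter (fun i => i ∈ {i | ε < u i}), u i := by
        refine Finset.card_nsmul_le_sum _ _ _ fun i hi => ?_
        exact le_of_lt (Finset.mem_filter.1 hi).2
    _ ≤ _ := Finset.sum_le_sum_of_subset_of_nonneg (Finset.filter_subset _ _) fun i _ _ => h0 i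

lemma avg_of_dz {u : ℕ → ℝ} (h0 : ∀ i, 0 ≤ u i) (h1 : ∀ i, u i ≤ 1)
    (h : ∀ m : ℕ, dz {i | (1 / 2 : ℝ) ^ m < u i}) :
    Tendsto (fun n : ℕ => (∑ i ∈ Finset.range n, u i) / n) atTop (𝓝 0) := by
  classical
  rw [Metric.tendsto_atTop]
  intro ε hε
  obtain ⟨m, hm⟩ := exists_pow_lt_of_lt_one (half_pos hε) (by norm_num : (1 / 2 : ℝ) < 1)
  obtain ⟨N, hN⟩ := Metric.tendsto_atTop.1 (h m) (ε / 2) (half_pos hε)
  refine ⟨max N 1, fun n hn => ?_⟩
  have hn1 : 1 ≤ n := (le_max_right _ _).trans hn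
  have hnr : (0 : ℝ) < n := by exact_mod_cast hn1
  have h2 := hN n ((le_max_left _ _).trans hn)
  rw [Real.dist_eq, sub_zero, abs_of_nonneg (by positivity)] at h2
  rw [Real.dist_eq, sub_zero, abs_of_nonneg (div_nonneg (Finset.sum_nonneg fun i _ => h0 i) hnr.le)]
  have h3 : ∑ i ∈ Finset.range n, u i ≤ cn {i | (1 / 2 : ℝ) ^ m < u i} n + n * (1 / 2) ^ m := by
    have h4 : ∀ i ∈ Finset.range n, u i ≤ (if i ∈ {i | (1 / 2 : ℝ) ^ m < u i} then 1 else 0) +
        (1 / 2) ^ m := by
      intro i _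
      split_ifs with h5
      · have := h1 i
        have : (0 : ℝ) ≤ (1 / 2) ^ m := by positivity
        linarith
      · rw [zero_add]
        simpa using h5
    refine (Finset.sum_le_sum h4).trans ?_
    rw [Finset.sum_add_distrib, Finset.sum_const, Finset.card_range, nsmul_eq_mul, Finset.sum_boole]
    unfold cn
    exact le_rfl
  rw [div_lt_iff₀ hnr]
  rw [div_lt_iff₀ hnr] at h2
  have h5 : (n : ℝ) * (1 / 2) ^ m < n * (ε / 2) := mul_lt_mul_of_pos_left hm hnr
  linarith

/-! ### invariant measures -/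

theorem kb {X : Type} [MetricSpace X] [CompactSpace X] [MeasurableSpace X] [BorelSpace X]
    (f : X → X) (hf : Continuous f) (y : X) (C : Set X) (hC : IsClopen C) (δ : ℝ)
    (hδ : ∀ᶠ n : ℕ in atTop, δ * n ≤ cn {i | f^[i] y ∈ C} n) :
    ∃ μ : Measure X, IsProbabilityMeasure μ ∧ μ.map f = μ ∧ δ ≤ μ.real C := by
  classical
  set mm : ℕ → Measure X := fun n =>
    ((n : ENNReal) + 1)⁻¹ • ∑ i ∈ Finset.range (n + 1), Measure.dirac (f^[i] y) with hmm
  have hmp : ∀ n, IsProbabilityMeasure (mm n) := by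
    intro n
    refine ⟨?_⟩
    rw [hmm]
    simp only [Measure.smul_apply, Measure.coe_finsetSum, Finset.sum_apply, smul_eq_mul,
      measure_univ, Finset.sum_const, Finset.card_range, nsmul_eq_mul, mul_one]
    push_cast
    exact ENNReal.inv_mul_cancel (by simp) (by simp)
  set mun : ℕ → ProbabilityMeasure X := fun n => ⟨mm n, hmp n⟩ with hmun
  have hint : ∀ (n : ℕ) (g : X → ℝ), Continuous g →
      ∫ x, g x ∂((mun n : ProbabilityMeasure X) : Measure X) =
      ((n : ℝ) + 1)⁻¹ * ∑ i ∈ Finset.range (n + 1), g (f^[i] y) := by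
    intro n g hg
    show ∫ x, g x ∂(mm n) = _
    rw [hmm]
    simp only
    rw [integral_smul_measure, integral_finsetSum_measure]
    · simp only [integral_dirac, smul_eq_mul]
      congr 1
      rw [ENNReal.toReal_inv]
      congr 1
    · intro i _
      exact integrable_dirac (by simp)
  set U : Ultrafilter ℕ := hyperfilter ℕ with hU
  have hUtop : (U : Filter ℕ) ≤ atTop := Nat.hyperfilter_le_atTop
  obtain ⟨mu', hmu'⟩ : ∃ mu' : ProbabilityMeasure X, Tendsto mun U (𝓝 mu') :=
    ⟨_, (U.map mun).le_nhds_lim⟩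
  rw [ProbabilityMeasure.tendsto_iff_forall_integral_tendsto] at hmu'
  have lim : ∀ g : X → ℝ, Continuous g →
      Tendsto (fun n : ℕ => ((n : ℝ) + 1)⁻¹ * ∑ i ∈ Finset.range (n + 1), g (f^[i] y)) U
        (𝓝 (∫ x, g x ∂(mu' : Measure X))) := by
    intro g hg
    have h1 := hmu' (BoundedContinuousFunction.mkOfCompact ⟨g, hg⟩)
    refine h1.congr fun n => ?_
    exact hint n g hg
  refine ⟨mu', inferInstance, ?_, ?_⟩
  · have : IsProbabilityMeasure ((mu' : Measure X).map f) :=
      Measure.isProbabilityMeasure_map hf.measurable.aemeasurable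
    refine ext_of_forall_integral_eq_of_IsFiniteMeasure fun g => ?_
    rw [integral_map hf.measurable.aemeasurable g.continuous.aestronglyMeasurable]
    have l1 := lim (fun x => g (f x)) (g.continuous.comp hf)
    have l2 := lim g g.continuous
    have l3 := l1.sub l2
    have l4 : Tendsto (fun n : ℕ => ((n : ℝ) + 1)⁻¹ * ∑ i ∈ Finset.range (n + 1), g (f (f^[i] y)) -
        ((n : ℝ) + 1)⁻¹ * ∑ i ∈ Finset.range (n + 1), g (f^[i] y)) atTop (𝓝 0) := by
      have e1 : ∀ n : ℕ, ((n : ℝ) + 1)⁻¹ * ∑ i ∈ Finset.range (n + 1), g (f (f^[i] y)) -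
        ((n : ℝ) + 1)⁻¹ * ∑ i ∈ Finset.range (n + 1), g (f^[i] y) =
        (g (f^[n + 1] y) - g y) * (1 / ((n : ℝ) + 1)) := by
        intro n
        have e2 : ∑ i ∈ Finset.range (n + 1), g (f (f^[i] y)) -
            ∑ i ∈ Finset.range (n + 1), g (f^[i] y) = g (f^[n + 1] y) - g y := by
          rw [← Finset.sum_sub_distrib]
          have := Finset.sum_range_sub (fun i => g (f^[i] y)) (n + 1)
          simp only [Function.iterate_succ_apply', Function.iterate_zero, id_eq] at this ⊢
          exact this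
        rw [← mul_sub, e2]
        ring
      simp only [e1]
      refine squeeze_zero_norm (a := fun n : ℕ => (2 * ‖g‖) * (1 / ((n : ℝ) + 1))) (fun n => ?_) ?_
      · rw [norm_mul]
        have h5 : ‖g (f^[n + 1] y) - g y‖ ≤ 2 * ‖g‖ := by
          have := norm_sub_le (g (f^[n + 1] y)) (g y)
          have h6 := g.norm_coe_le_norm (f^[n + 1] y)
          have h7 := g.norm_coe_le_norm y
          linarith
        rw [Real.norm_of_nonneg (by positivity : (0 : ℝ) ≤ 1 / ((n : ℝ) + 1))]
        exact mul_le_mul_of_nonneg_right h5 (by positivity)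
      · simpa using (tendsto_one_div_add_atTop_nhds_zero_nat (𝕜 := ℝ)).const_mul (2 * ‖g‖)
    have l5 := tendsto_nhds_unique l3 (l4.mono_left hUtop)
    linarith
  · have hCc : Continuous (C.indicator fun _ : X => (1 : ℝ)) :=
      (continuous_const).indicator (by rw [hC.frontier_eq]; simp)
    have l1 := lim _ hCc
    have e1 : ∫ x, C.indicator (fun _ : X => (1 : ℝ)) x ∂(mu' : Measure X) =
        (mu' : Measure X).real C := by
      rw [integral_indicator hC.2.measurableSet]
      simp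
    rw [e1] at l1
    refine ge_of_tendsto l1 (hUtop ?_)
    have h1 := (tendsto_add_atTop_nat 1).eventually hδ
    filter_upwards [h1] with n hn
    have e2 : ∑ i ∈ Finset.range (n + 1), C.indicator (fun _ : X => (1 : ℝ)) (f^[i] y) =
        cn {i | f^[i] y ∈ C} (n + 1) := by
      unfold cn
      rw [Finset.card_filter]
      push_cast
      refine Finset.sum_congr rfl fun i _ => ?_
      by_cases h : i ∈ {i | f^[i] y ∈ C}
      · rw [indicator_of_mem (show f^[i] y ∈ C from h), if_pos h]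
      · rw [indicator_of_notMem (show f^[i] y ∉ C from h), if_neg h]
    rw [e2, ← div_eq_inv_mul, le_div_iff₀ (by positivity)]
    push_cast at hn
    exact hn

/-- full support from local positivity -/
theorem full_support {X : Type} [TopologicalSpace X] [SecondCountableTopology X] [Nonempty X]
    [MeasurableSpace X] [BorelSpace X] (f : X → X) (hf : Continuous f)
    (h : ∀ U : Set X, IsOpen U → U.Nonempty →
      ∃ μ : Measure X, IsProbabilityMeasure μ ∧ μ.map f = μ ∧ 0 < μ U) :
    ∃ μ : Measure X, IsProbabilityMeasure μ ∧ μ.map f = μ ∧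
      ∀ U : Set X, IsOpen U → U.Nonempty → 0 < μ U := by
  obtain ⟨B, hBc, hB0, hBb⟩ := TopologicalSpace.exists_countable_basis X
  have hBne : B.Nonempty := by
    obtain ⟨x⟩ := ‹Nonempty X›
    obtain ⟨b, hb, -⟩ := hBb.exists_subset_of_mem_open (mem_univ x) isOpen_univ
    exact ⟨b, hb⟩
  obtain ⟨e, he⟩ := hBc.exists_eq_range hBne
  have h1 : ∀ n, ∃ μ : Measure X, IsProbabilityMeasure μ ∧ μ.map f = μ ∧ 0 < μ (e n) := by
    intro n
    have hn : e n ∈ B := by rw [he]; exact mem_range_self n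
    refine h (e n) (hBb.isOpen hn) ?_
    by_contra hne
    rw [not_nonempty_iff_eq_empty] at hne
    rw [hne] at hn
    exact hB0 hn
  choose ν hν1 hν2 hν3 using h1
  refine ⟨Measure.sum fun n => ((2 : ENNReal)⁻¹ ^ (n + 1)) • ν n, ?_, ?_, ?_⟩
  · refine ⟨?_⟩
    rw [Measure.sum_apply _ MeasurableSet.univ]
    simp only [Measure.smul_apply, measure_univ, smul_eq_mul, mul_one]
    rw [ENNReal.tsum_geometric_add_one]
    rw [ENNReal.one_sub_inv_two, inv_inv]
    exact ENNReal.inv_mul_cancel (by simp) (by simp)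
  · rw [Measure.map_sum hf.measurable.aemeasurable]
    simp only [Measure.map_smul, hν2]
  · intro U hU hUne
    obtain ⟨x, hx⟩ := hUne
    obtain ⟨b, hb, -, hbU⟩ := hBb.exists_subset_of_mem_open hx hU
    rw [he] at hb
    obtain ⟨n, rfl⟩ := hb
    have h2 : 0 < (((2 : ENNReal)⁻¹ ^ (n + 1)) • ν n) (e n) := by
      rw [Measure.smul_apply, smul_eq_mul]
      exact ENNReal.mul_pos (by simp) (hν3 n).ne'
    calc 0 < (((2 : ENNReal)⁻¹ ^ (n + 1)) • ν n) (e n) := h2
      _ ≤ (((2 : ENNReal)⁻¹ ^ (n + 1)) • ν n) U := measure_mono hbU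
      _ ≤ _ := Measure.le_sum (fun n => ((2 : ENNReal)⁻¹ ^ (n + 1)) • ν n) n U

end Pool.Agent.X194.AS
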